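import Pool.Agent.H371.LG3.Pub

/-!
# MP_0f2eae_al: the group `T⁺` is not normal in all types `(1, n)`, `n ≥ 2`

Let `π = Pi 1 n` be the profinite completion of the fundamental group of a torus with `n ≥ 2` punctures,
with standard discretification `π_0 = std 1 n`.  Some element of `Aut_lac(π)` has no positive power which
normalizes `T⁺(π_0)`: the group `T⁺(π_0)` is not normal in `T(π)`, and its normalizer has infinite index.
-/

set_option autoImplicit false

namespace Pool.Agent.Results.MP_0f2eae_al.GenusOne

open Pool.Agent.H371.LG.Pub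

/-- Grothendieck's normality assertion fails in all types `(1, n)`, `n ≥ 2`. -/
theorem result (n : ℕ) (hn : 2 ≤ n) :
    ∃ φ ∈ AutLac 1 n, ∀ k : ℕ, 0 < k →
      ∃ ψ ∈ TPlus (std 1 n), φ ^ k * ψ * (φ ^ k)⁻¹ ∉ TPlus (std 1 n) :=
  (genus_one hn).1

end Pool.Agent.Results.MP_0f2eae_al.GenusOne
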